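import Mathlib

/-!
# MP_8dfcc7_al: a five-parameter family of `q` with an upper triangular matrix outside `⟨A⟩`

For nonzero integers `n`, `d`, `x`, `y`, `z` such that `d` does not divide `y`, put
`q = (y + d (x + z)) / (n d x y z)`.  Then `Γ_q` contains the unipotent matrix with upper right
entry `- y / d`, as the value of the word
`B ^ (- n d z) A ^ x B ^ (- n y) A ^ z B ^ (- n d x)`.
-/

set_option autoImplicit false

namespace Pool.Agent.Results.MP_8dfcc7_al.ThreeSyllables

open Matrix

/-- the group `SL(2, ℝ)` -/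
abbrev SL2 := Matrix.SpecialLinearGroup (Fin 2) ℝ

/-- the upper unipotent matrix with upper right entry `x` -/
def upper (x : ℝ) : SL2 := ⟨!![1, x; 0, 1], by simp [Matrix.det_fin_two_of]⟩

/-- the lower unipotent matrix with lower left entry `y` -/
def lower (y : ℝ) : SL2 := ⟨!![1, 0; y, 1], by simp [Matrix.det_fin_two_of]⟩

/-- the group `Γ_q` generated by `A = upper 1` and `B_q = lower q` -/
def Gam (q : ℝ) : Subgroup SL2 := Subgroup.closure {upper 1, lower q}

theorem upper_add (x y : ℝ) : upper (x + y) = upper x * upper y := by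
  apply Subtype.ext
  show !![1, x + y; 0, 1] = !![1, x; 0, 1] * !![1, y; 0, 1]
  ext i j
  fin_cases i <;> fin_cases j <;> simp [Matrix.mul_apply, Fin.sum_univ_two, add_comm]

theorem lower_add (x y : ℝ) : lower (x + y) = lower x * lower y := by
  apply Subtype.ext
  show !![1, 0; x + y, 1] = !![1, 0; x, 1] * !![1, 0; y, 1]
  ext i j
  fin_cases i <;> fin_cases j <;> simp [Matrix.mul_apply, Fin.sum_univ_two]

/-- `upper` as a homomorphism -/
noncomputable def upperHom : Multiplicative ℝ →* SL2 where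
  toFun x := upper (Multiplicative.toAdd x)
  map_one' := by
    apply Subtype.ext
    show !![1, (0 : ℝ); 0, 1] = 1
    ext i j
    fin_cases i <;> fin_cases j <;> simp
  map_mul' x y := upper_add _ _

/-- `lower` as a homomorphism -/
noncomputable def lowerHom : Multiplicative ℝ →* SL2 where
  toFun x := lower (Multiplicative.toAdd x)
  map_one' := by
    apply Subtype.ext
    show !![1, 0; (0 : ℝ), 1] = 1
    ext i j
    fin_cases i <;> fin_cases j <;> simp
  map_mul' x y := lower_add _ _

theorem upper_zpow (x : ℝ) (n : ℤ) : upper x ^ n = upper (n * x) := by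
  have h := map_zpow upperHom (Multiplicative.ofAdd x) n
  have h1 : (Multiplicative.ofAdd x) ^ n = Multiplicative.ofAdd ((n : ℝ) * x) := by
    rw [← ofAdd_zsmul, zsmul_eq_mul]
  rw [h1] at h
  exact h.symm

theorem lower_zpow (x : ℝ) (n : ℤ) : lower x ^ n = lower (n * x) := by
  have h := map_zpow lowerHom (Multiplicative.ofAdd x) n
  have h1 : (Multiplicative.ofAdd x) ^ n = Multiplicative.ofAdd ((n : ℝ) * x) := by
    rw [← ofAdd_zsmul, zsmul_eq_mul]
  rw [h1] at h
  exact h.symm

theorem upper_mem (q : ℝ) (n : ℤ) (x : ℝ) (hx : x = n) : upper x ∈ Gam q := by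
  have h : upper 1 ∈ Gam q := Subgroup.subset_closure (by simp)
  have h1 := Subgroup.zpow_mem _ h n
  rw [upper_zpow, mul_one, ← hx] at h1
  exact h1

theorem lower_mem (q : ℝ) (n : ℤ) (y : ℝ) (hy : y = n * q) : lower y ∈ Gam q := by
  have h : lower q ∈ Gam q := Subgroup.subset_closure (by simp)
  have h1 := Subgroup.zpow_mem _ h n
  rw [lower_zpow, ← hy] at h1
  exact h1

/-- the matrix identity behind the family -/
theorem word (d x y z : ℝ) (hd : d ≠ 0) (hx : x ≠ 0) (hy : y ≠ 0) (hz : z ≠ 0) :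
    lower (-((y + d * (x + z)) / (x * y))) * upper x * lower (-((y + d * (x + z)) / (d * x * z)))
      * upper z * lower (-((y + d * (x + z)) / (y * z))) = upper (-(y / d)) := by
  apply Subtype.ext
  show !![1, 0; -((y + d * (x + z)) / (x * y)), 1] * !![1, x; 0, 1]
    * !![1, 0; -((y + d * (x + z)) / (d * x * z)), 1] * !![1, z; 0, 1]
    * !![1, 0; -((y + d * (x + z)) / (y * z)), 1] = !![1, -(y / d); 0, 1]
  ext i j
  fin_cases i <;> fin_cases j <;> simp [Matrix.mul_apply, Fin.sum_univ_two] <;> field_simp <;> ring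

/-- for nonzero integers `n, d, x, y, z` with `d ∤ y` and `q = (y + d (x + z)) / (n d x y z)` the
group `Γ_q` contains an upper triangular matrix outside `⟨A⟩` -/
theorem result (n d x y z : ℤ) (hn : n ≠ 0) (hd : d ≠ 0) (hx : x ≠ 0) (hz : z ≠ 0)
    (hdy : ¬ d ∣ y) :
    ∃ M ∈ Gam (((y + d * (x + z) : ℤ) : ℝ) / ((n * d * x * y * z : ℤ) : ℝ)),
      (M : Matrix (Fin 2) (Fin 2) ℝ) 1 0 = 0 ∧ M ∉ Subgroup.zpowers (upper 1) := by
  have hy : y ≠ 0 := by rintro rfl; exact hdy (dvd_zero d)
  have hn' : (n : ℝ) ≠ 0 := by exact_mod_cast hn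
  have hd' : (d : ℝ) ≠ 0 := by exact_mod_cast hd
  have hx' : (x : ℝ) ≠ 0 := by exact_mod_cast hx
  have hy' : (y : ℝ) ≠ 0 := by exact_mod_cast hy
  have hz' : (z : ℝ) ≠ 0 := by exact_mod_cast hz
  refine ⟨upper (-((y : ℝ) / d)), ?_, ?_, ?_⟩
  · rw [← word (d : ℝ) x y z hd' hx' hy' hz']
    refine Subgroup.mul_mem _ (Subgroup.mul_mem _ (Subgroup.mul_mem _ (Subgroup.mul_mem _ ?_ ?_) ?_)
      ?_) ?_
    · refine lower_mem _ (-(n * d * z)) _ ?_
      push_cast; field_simp
    · exact upper_mem _ x _ rfl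
    · refine lower_mem _ (-(n * y)) _ ?_
      push_cast; field_simp
    · exact upper_mem _ z _ rfl
    · refine lower_mem _ (-(n * d * x)) _ ?_
      push_cast; field_simp
  · simp [upper]
  · intro hmem
    obtain ⟨k, hk⟩ := Subgroup.mem_zpowers_iff.1 hmem
    rw [upper_zpow, mul_one] at hk
    have h1 : (k : ℝ) = -((y : ℝ) / d) := by
      have := congrArg (fun M : SL2 => (M : Matrix (Fin 2) (Fin 2) ℝ) 0 1) hk
      simpa [upper] using this
    apply hdy
    refine ⟨-k, ?_⟩
    have h3 : (y : ℝ) = d * (-k) := by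
      rw [h1]; field_simp
    exact_mod_cast h3

end Pool.Agent.Results.MP_8dfcc7_al.ThreeSyllables
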