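import Mathlib

/-!
# MP_8dfcc7_al: sums of two unit fractions with an upper triangular matrix outside `⟨A⟩`

For nonzero integers `n`, `x`, `y` with `x + y ≠ 0`, put `q = (x + y) / (n x y)`.  Then the word
`B ^ y A ^ (-n) B ^ x` is upper triangular with upper left entry `- x / y ≠ 1`.
-/

set_option autoImplicit false

namespace Pool.Agent.Results.MP_8dfcc7_al.TwoSyllables

open Matrix

/-- the group `SL(2, ℝ)` -/
abbrev SL2 := Matrix.SpecialLinearGroup (Fin 2) ℝ

/-- the upper unipotent matrix with upper right entry `x` -/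
def upper (x : ℝ) : SL2 := ⟨!![1, x; 0, 1], by simp [Matrix.det_fin_two_of]⟩

/-- the lower unipotent matrix with lower left entry `y` -/
def lower (y : ℝ) : SL2 := ⟨!![1, 0; y, 1], by simp [Matrix.det_fin_two_of]⟩

/-- the group `Γ_q` generated by `A = upper 1` and `B_q = lower q` -/
def Gam (q : ℝ) : Subgroup SL2 := Subgroup.closure {upper 1, lower q}

theorem upper_add (x y : ℝ) : upper (x + y) = upper x * upper y := by
  apply Subtype.ext
  show !![1, x + y; 0, 1] = !![1, x; 0, 1] * !![1, y; 0, 1]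
  ext i j
  fin_cases i <;> fin_cases j <;> simp [Matrix.mul_apply, Fin.sum_univ_two, add_comm]

theorem lower_add (x y : ℝ) : lower (x + y) = lower x * lower y := by
  apply Subtype.ext
  show !![1, 0; x + y, 1] = !![1, 0; x, 1] * !![1, 0; y, 1]
  ext i j
  fin_cases i <;> fin_cases j <;> simp [Matrix.mul_apply, Fin.sum_univ_two]

/-- `upper` as a homomorphism -/
noncomputable def upperHom : Multiplicative ℝ →* SL2 where
  toFun x := upper (Multiplicative.toAdd x)
  map_one' := by
    apply Subtype.ext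
    show !![1, (0 : ℝ); 0, 1] = 1
    ext i j
    fin_cases i <;> fin_cases j <;> simp
  map_mul' x y := upper_add _ _

/-- `lower` as a homomorphism -/
noncomputable def lowerHom : Multiplicative ℝ →* SL2 where
  toFun x := lower (Multiplicative.toAdd x)
  map_one' := by
    apply Subtype.ext
    show !![1, 0; (0 : ℝ), 1] = 1
    ext i j
    fin_cases i <;> fin_cases j <;> simp
  map_mul' x y := lower_add _ _

theorem upper_zpow (x : ℝ) (n : ℤ) : upper x ^ n = upper (n * x) := by
  have h := map_zpow upperHom (Multiplicative.ofAdd x) n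
  have h1 : (Multiplicative.ofAdd x) ^ n = Multiplicative.ofAdd ((n : ℝ) * x) := by
    rw [← ofAdd_zsmul, zsmul_eq_mul]
  rw [h1] at h
  exact h.symm

theorem lower_zpow (x : ℝ) (n : ℤ) : lower x ^ n = lower (n * x) := by
  have h := map_zpow lowerHom (Multiplicative.ofAdd x) n
  have h1 : (Multiplicative.ofAdd x) ^ n = Multiplicative.ofAdd ((n : ℝ) * x) := by
    rw [← ofAdd_zsmul, zsmul_eq_mul]
  rw [h1] at h
  exact h.symm

theorem upper_mem (q : ℝ) (n : ℤ) (x : ℝ) (hx : x = n) : upper x ∈ Gam q := by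
  have h : upper 1 ∈ Gam q := Subgroup.subset_closure (by simp)
  have h1 := Subgroup.zpow_mem _ h n
  rw [upper_zpow, mul_one, ← hx] at h1
  exact h1

theorem lower_mem (q : ℝ) (n : ℤ) (y : ℝ) (hy : y = n * q) : lower y ∈ Gam q := by
  have h : lower q ∈ Gam q := Subgroup.subset_closure (by simp)
  have h1 := Subgroup.zpow_mem _ h n
  rw [lower_zpow, ← hy] at h1
  exact h1

/-- for nonzero integers `n, x, y` with `x + y ≠ 0` and `q = (x + y) / (n x y)` the group `Γ_q`
contains an upper triangular matrix outside `⟨A⟩` -/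
theorem result (n x y : ℤ) (hn : n ≠ 0) (hx : x ≠ 0) (hy : y ≠ 0) (hxy : x + y ≠ 0) :
    ∃ M ∈ Gam (((x + y : ℤ) : ℝ) / ((n * x * y : ℤ) : ℝ)),
      (M : Matrix (Fin 2) (Fin 2) ℝ) 1 0 = 0 ∧ M ∉ Subgroup.zpowers (upper 1) := by
  have hn' : (n : ℝ) ≠ 0 := by exact_mod_cast hn
  have hx' : (x : ℝ) ≠ 0 := by exact_mod_cast hx
  have hy' : (y : ℝ) ≠ 0 := by exact_mod_cast hy
  have hM : ((lower (((x : ℝ) + y) / (n * x)) * upper (-n) * lower (((x : ℝ) + y) / (n * y)) : SL2) :
      Matrix (Fin 2) (Fin 2) ℝ) = !![-(x / y : ℝ), -n; 0, -(y / x : ℝ)] := by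
    show !![1, 0; ((x : ℝ) + y) / (n * x), 1] * !![1, -(n : ℝ); 0, 1] *
      !![1, 0; ((x : ℝ) + y) / (n * y), 1] = _
    ext i j
    fin_cases i <;> fin_cases j <;> simp [Matrix.mul_apply, Fin.sum_univ_two] <;> field_simp <;>
      ring
  refine ⟨lower (((x : ℝ) + y) / (n * x)) * upper (-n) * lower (((x : ℝ) + y) / (n * y)), ?_, ?_, ?_⟩
  · refine Subgroup.mul_mem _ (Subgroup.mul_mem _ ?_ ?_) ?_
    · refine lower_mem _ y _ ?_
      push_cast; field_simp
    · exact upper_mem _ (-n) _ (by push_cast; ring)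
    · refine lower_mem _ x _ ?_
      push_cast; field_simp
  · rw [hM]; simp
  · intro hmem
    obtain ⟨k, hk⟩ := Subgroup.mem_zpowers_iff.1 hmem
    rw [upper_zpow, mul_one] at hk
    have h0 : (upper (k : ℝ) : Matrix (Fin 2) (Fin 2) ℝ) = !![-(x / y : ℝ), -n; 0, -(y / x : ℝ)] := by
      rw [hk, hM]
    have h1 : (1 : ℝ) = -(x / y : ℝ) := by
      have := congrFun (congrFun h0 0) 0
      simpa [upper] using this
    apply hxy
    have h3 : (x : ℝ) + y = 0 := by
      field_simp at h1
      linarith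
    exact_mod_cast h3

end Pool.Agent.Results.MP_8dfcc7_al.TwoSyllables
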